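import Pool.Agent.V8H87.DK.Pure
import Pool.Agent.V8H87.GG.Rect

/-!
# Kimura finite-dimensionality descends from diagonal quotients
-/

set_option autoImplicit false
set_option linter.unusedSectionVars false

open CategoryTheory Limits MonoidalCategory Module Equiv Finset
open Pool.Agent.Y112.SR Pool.Agent.Y112.KD Pool.Agent.R905 Pool.Agent.K3h8.KS Pool.Agent.K3h8.SF
open Pool.Agent.V8H87.GG Pool.Agent.V8H87.DQ
open Pool.Agent.Y116.MT (tr)
open Functor.LaxMonoidal Functor.OplaxMonoidal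

namespace Pool.Agent.V8H87.DK

universe v u w

section

variable {C : Type u} [Category.{v} C] [Preadditive C] [Linear ℚ C] [MonoidalCategory C]
  [MonoidalPreadditive C] [MonoidalLinear ℚ C] [SymmetricCategory C]
  [RightRigidCategory C] {K : Type w} [Field K] (R : SuperRealisation C K) (hU : UnitQ C)
  {G : Type} [Group G] [Fintype G] {M N : C} (ρ : G →* End M) (σ : G →* End N)

/-- The rational characters of `N`. -/
noncomputable def tau (γ : End N) (g : G) : ℚ := trq hU N (σ g * γ)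

lemma tau_eq {γ : End N} (hγ : R.H.map (γ : N ⟶ N) = R.par N) (g : G) :
    ((tau hU σ γ g : ℚ) : K) = LinearMap.trace K _ (R.H.map (σ g : N ⟶ N)).hom := by
  have h1 := real_tr R hU ((σ g * γ : End N) : N ⟶ N)
  have h2 : R.H.map ((σ g * γ : End N) : N ⟶ N) ≫ R.par N = R.H.map (σ g : N ⟶ N) := by
    rw [End.mul_def, R.H.map_comp, hγ, ← R.par_natural, Category.assoc, R.par_sq,
      Category.comp_id]
  rw [h2] at h1
  exact h1

/-- The contraction of the projector. -/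
lemma ptr_diag (γ : End N) : ptr ((M ◁ (γ : N ⟶ N)) ≫ diag ρ σ) =
    ((Fintype.card G : ℚ)⁻¹ • ∑ g, tau hU σ γ g • ρ g : End M) := by
  have h1 : (M ◁ (γ : N ⟶ N)) ≫ diag ρ σ = (Fintype.card G : ℚ)⁻¹ •
      ∑ g, ((ρ g : M ⟶ M) ⊗ₘ ((σ g * γ : End N) : N ⟶ N)) := by
    unfold DQ.diag
    rw [Linear.comp_smul, Preadditive.comp_sum]
    congr 1
    refine sum_congr rfl (fun g _ => ?_)
    rw [← id_tensorHom, tensorHom_comp_tensorHom, Category.id_comp]
    rfl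
  rw [h1]
  refine ((ptrL M N).map_smul _ _).trans ?_
  congr 1
  rw [map_sum]
  refine sum_congr rfl (fun g _ => ?_)
  exact ptr_tensor (ρ g : M ⟶ M) _ _ (trq_spec hU _)

/-- Equivariant homologically trivial endomorphisms are nilpotent. -/
lemma nil_equiv {W : C} (i : W ⟶ M ⊗ N) (r : M ⊗ N ⟶ W)
    (hir : i ≫ r = 𝟙 W) (hri : r ≫ i = diag ρ σ) (hW : HomNil R W) (γ : End N) (t' : End M)
    (ht : (∑ g, tau hU σ γ g • ρ g) * t' = 1) {f : End M} (hf : R.H.map (f : M ⟶ M) = 0)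
    (hfc : ∀ g, f * ρ g = ρ g * f) : IsNilpotent f := by
  have hcomm : ∀ a : End M, (∀ g, a * ρ g = ρ g * a) →
      ((a : M ⟶ M) ▷ N) ≫ diag ρ σ = diag ρ σ ≫ ((a : M ⟶ M) ▷ N) := by
    intro a ha
    unfold DQ.diag
    rw [Linear.comp_smul, Linear.smul_comp, Preadditive.comp_sum, Preadditive.sum_comp]
    congr 1
    refine sum_congr rfl (fun g _ => ?_)
    rw [← tensorHom_id, tensorHom_comp_tensorHom, tensorHom_comp_tensorHom, Category.id_comp,
      Category.comp_id]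
    have h1 : (a : M ⟶ M) ≫ (ρ g : M ⟶ M) = (ρ g : M ⟶ M) ≫ (a : M ⟶ M) := (ha g).symm
    rw [h1]
  have hid : i ≫ diag ρ σ = i := by rw [← hri, ← Category.assoc, hir, Category.id_comp]
  have hdr : diag ρ σ ≫ r = r := by rw [← hri, Category.assoc, hir, Category.comp_id]
  have hF : R.H.map (i ≫ ((f : M ⟶ M) ▷ N) ≫ r) = 0 := by
    rw [R.H.map_comp, R.H.map_comp, map_whisker_zero R _ hf, zero_comp, comp_zero]
  obtain ⟨L, hL⟩ := hW (en (i ≫ ((f : M ⟶ M) ▷ N) ≫ r)) hF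
  have hpow : ∀ n : ℕ, (∀ g, f ^ n * ρ g = ρ g * f ^ n) ∧ (en (i ≫ ((f : M ⟶ M) ▷ N) ≫ r)) ^ n =
      en (i ≫ (((f ^ n : End M) : M ⟶ M) ▷ N) ≫ r) := by
    intro n
    induction n with
    | zero =>
      refine ⟨fun g => by rw [pow_zero, one_mul, mul_one], ?_⟩
      rw [pow_zero, pow_zero]
      have h1 : (((1 : End M) : M ⟶ M) ▷ N) = 𝟙 _ := id_whiskerRight M N
      rw [h1, Category.id_comp, hir]
      rfl
    | succ n ih =>
      refine ⟨fun g => by rw [pow_succ, mul_assoc, hfc, ← mul_assoc, ih.1, mul_assoc], ?_⟩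
      rw [pow_succ, ih.2, pow_succ, End.mul_def]
      change (i ≫ ((f : M ⟶ M) ▷ N) ≫ r) ≫ i ≫ (((f ^ n : End M) : M ⟶ M) ▷ N) ≫ r =
        i ≫ (((f : M ⟶ M) ≫ ((f ^ n : End M) : M ⟶ M)) ▷ N) ≫ r
      have h1 : (i ≫ ((f : M ⟶ M) ▷ N) ≫ r) ≫ i ≫ (((f ^ n : End M) : M ⟶ M) ▷ N) ≫ r =
          i ≫ (((f : M ⟶ M) ▷ N) ≫ (r ≫ i)) ≫ (((f ^ n : End M) : M ⟶ M) ▷ N) ≫ r := by
        simp only [Category.assoc]
      rw [h1, hri, hcomm f hfc, comp_whiskerRight]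
      simp only [Category.assoc]
      rw [← Category.assoc i, hid]
  refine ⟨L, ?_⟩
  rw [(hpow L).2] at hL
  have h1 : diag ρ σ ≫ (((f ^ L : End M) : M ⟶ M) ▷ N) = 0 := by
    have h2 : r ≫ (i ≫ (((f ^ L : End M) : M ⟶ M) ▷ N) ≫ r) ≫ i = 0 := by
      have h3 : i ≫ (((f ^ L : End M) : M ⟶ M) ▷ N) ≫ r = 0 := hL
      rw [h3, zero_comp, comp_zero]
    have h4 : r ≫ (i ≫ (((f ^ L : End M) : M ⟶ M) ▷ N) ≫ r) ≫ i =
        (r ≫ i) ≫ (((f ^ L : End M) : M ⟶ M) ▷ N) ≫ (r ≫ i) := by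
      simp only [Category.assoc]
    rw [h4, hri, hcomm _ (hpow L).1, ← Category.assoc, diag_idem] at h2
    exact h2
  have h2 : ptr ((M ◁ (γ : N ⟶ N) ≫ diag ρ σ) ≫ (((f ^ L : End M) : M ⟶ M) ▷ N)) = 0 := by
    rw [Category.assoc, h1, comp_zero]
    exact (ptrL M N).map_zero
  rw [ptr_comp_right, ptr_diag hU] at h2
  have hc : (Fintype.card G : ℚ)⁻¹ ≠ 0 := inv_ne_zero (Nat.cast_ne_zero.2 Fintype.card_ne_zero)
  have h3 : (Fintype.card G : ℚ)⁻¹ • (f ^ L * ∑ g, tau hU σ γ g • ρ g) = 0 := by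
    rw [← mul_smul_comm]
    exact h2
  have h4 := (smul_eq_zero.1 h3).resolve_left hc
  have h5 : f ^ L * (∑ g, tau hU σ γ g • ρ g) * t' = 0 := by rw [h4, zero_mul]
  rwa [mul_assoc, ht, mul_one] at h5

lemma ptK_par (a : M ⟶ M) (b : N ⟶ N) : ptK R M N (R.H.map (a ⊗ₘ b) ≫ R.par (M ⊗ N)) =
    LinearMap.trace K _ (R.H.map b).hom • (R.H.map a ≫ R.par M) := by
  have h2 : (2 : K) ≠ 0 := by
    have := R_charZero R
    exact two_ne_zero
  change pt R (μ R.H M N ≫ (R.H.map (a ⊗ₘ b) ≫ R.par (M ⊗ N)) ≫ δ R.H M N) = _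
  have h1 : μ R.H M N ≫ (R.H.map (a ⊗ₘ b) ≫ R.par (M ⊗ N)) ≫ δ R.H M N =
      ((R.H.map a ≫ R.par M) ⊗ₘ (R.H.map b ≫ R.par N)) := by
    rw [Category.assoc, ← Functor.LaxMonoidal.μ_natural_assoc, ← Category.assoc (μ R.H M N),
      R.par_tensor, Category.assoc, Functor.Monoidal.μ_δ, Category.comp_id,
      tensorHom_comp_tensorHom]
  rw [h1, pt_tensor R h2, Category.assoc, R.par_sq, Category.comp_id]

/-- An equivariant lift of the parity. -/
lemma exists_par {W : C} (i : W ⟶ M ⊗ N) (r : M ⊗ N ⟶ W) (hri : r ≫ i = diag ρ σ)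
    (hCW : R.CPlus W) {γ : End N} (hγ : R.H.map (γ : N ⟶ N) = R.par N) (t' : End M)
    (ht : (∑ g, tau hU σ γ g • ρ g) * t' = 1) :
    ∃ s : End M, R.H.map (s : M ⟶ M) = R.par M ∧ ∀ g, s * ρ g = ρ g * s := by
  have hK := R_charZero R
  obtain ⟨w, hw⟩ := (Pool.Agent.Y112.SR.cplus_iff R W).1 hCW
  set t : End M := ∑ g, tau hU σ γ g • ρ g with htdef
  have hcard : (Fintype.card G : ℚ) ≠ 0 := Nat.cast_ne_zero.2 Fintype.card_ne_zero
  have hcardK : (Fintype.card G : K) ≠ 0 := Nat.cast_ne_zero.2 Fintype.card_ne_zero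
  -- the contraction of the parity of `W`
  have h1 : R.H.map (ptr (r ≫ w ≫ i)) = (Fintype.card G : K)⁻¹ • (R.H.map (t : M ⟶ M) ≫ R.par M) := by
    have e1 : R.H.map (ptr (r ≫ w ≫ i)) = ptK R M N (R.H.map (r ≫ w ≫ i)) := map_ptr R _
    have e2 : R.H.map (r ≫ w ≫ i) = R.H.map (diag ρ σ) ≫ R.par (M ⊗ N) := by
      rw [R.H.map_comp, R.H.map_comp, hw, ← R.par_natural, ← Category.assoc, ← R.H.map_comp, hri]
    have e3 : R.H.map (diag ρ σ) = (Fintype.card G : K)⁻¹ • ∑ g, R.H.map ((ρ g : M ⟶ M) ⊗ₘ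
        (σ g : N ⟶ N)) := by
      unfold DQ.diag
      rw [DQ.map_rat_smul, R.H.map_sum]
      congr 1
      push_cast
      rfl
    have e4 : R.H.map (t : M ⟶ M) = ∑ g, (tau hU σ γ g : K) • R.H.map (ρ g : M ⟶ M) := by
      have e5 : R.H.map (t : M ⟶ M) = ∑ g, R.H.map ((tau hU σ γ g • ρ g : End M) : M ⟶ M) :=
        R.H.map_sum _ _
      rw [e5]
      exact sum_congr rfl (fun g _ => map_rat_smul _ _)
    rw [e1, e2, e3, Linear.smul_comp, map_smul, Preadditive.sum_comp, map_sum, e4,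
      Preadditive.sum_comp]
    congr 1
    refine sum_congr rfl (fun g _ => ?_)
    rw [ptK_par, ← tau_eq R hU σ hγ, Linear.smul_comp]
  -- the lift of the parity
  set s0 : End M := (Fintype.card G : ℚ) • ((t' : M ⟶ M) ≫ ptr (r ≫ w ≫ i)) with hs0
  have h2 : R.H.map (s0 : M ⟶ M) = R.par M := by
    have e1 : R.H.map (s0 : M ⟶ M) = ((Fintype.card G : ℚ) : K) •
        R.H.map ((t' : M ⟶ M) ≫ ptr (r ≫ w ≫ i)) := map_rat_smul _ _
    have e2 : (t' : M ⟶ M) ≫ (t : M ⟶ M) = 𝟙 M := ht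
    rw [e1, R.H.map_comp, h1, Linear.comp_smul, smul_smul, ← Category.assoc, ← R.H.map_comp, e2,
      R.H.map_id, Category.id_comp]
    push_cast
    rw [mul_inv_cancel₀ hcardK, one_smul]
  -- average
  refine ⟨(Fintype.card G : ℚ)⁻¹ • ∑ g, ρ g * s0 * ρ g⁻¹, ?_, ?_⟩
  · have e1 : R.H.map (((Fintype.card G : ℚ)⁻¹ • ∑ g, ρ g * s0 * ρ g⁻¹ : End M) : M ⟶ M) =
        (((Fintype.card G : ℚ)⁻¹ : ℚ) : K) • ∑ g, R.H.map ((ρ g * s0 * ρ g⁻¹ : End M) : M ⟶ M) := by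
      rw [← R.H.map_sum]
      exact map_rat_smul _ _
    have e2 : ∀ g, R.H.map ((ρ g * s0 * ρ g⁻¹ : End M) : M ⟶ M) = R.par M := by
      intro g
      have e3 : ((ρ g * s0 * ρ g⁻¹ : End M) : M ⟶ M) =
        (ρ g⁻¹ : M ⟶ M) ≫ (s0 : M ⟶ M) ≫ (ρ g : M ⟶ M) := rfl
      have e4 : (ρ g⁻¹ : M ⟶ M) ≫ (ρ g : M ⟶ M) = 𝟙 M := by
        change ρ g * ρ g⁻¹ = 1
        rw [← map_mul, mul_inv_cancel, map_one]
      rw [e3, R.H.map_comp, R.H.map_comp, h2, ← R.par_natural, ← Category.assoc, ← R.H.map_comp,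
        e4, R.H.map_id, Category.id_comp]
    rw [e1, sum_congr rfl (fun g _ => e2 g), sum_const, card_univ, ← Nat.cast_smul_eq_nsmul K,
      smul_smul]
    push_cast
    rw [inv_mul_cancel₀ hcardK, one_smul]
  · intro h
    rw [smul_mul_assoc, mul_smul_comm]
    congr 1
    rw [sum_mul, mul_sum, ← Equiv.sum_comp (Equiv.mulLeft h)]
    refine sum_congr rfl (fun g _ => ?_)
    have e3 : ρ ((Equiv.mulLeft h) g)⁻¹ * ρ h = ρ g⁻¹ := by
      rw [← map_mul, Equiv.coe_mulLeft, mul_inv_rev, inv_mul_cancel_right]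
    have e4 : ρ ((Equiv.mulLeft h) g) = ρ h * ρ g := by
      rw [Equiv.coe_mulLeft, map_mul]
    rw [mul_assoc, e3, e4, mul_assoc, mul_assoc, mul_assoc]

/-- The even projector. -/
lemma exists_even {W : C} (i : W ⟶ M ⊗ N) (r : M ⊗ N ⟶ W)
    (hir : i ≫ r = 𝟙 W) (hri : r ≫ i = diag ρ σ) (hW : HomNil R W) (hCW : R.CPlus W)
    {γ : End N} (hγ : R.H.map (γ : N ⟶ N) = R.par N) (t' : End M)
    (ht : (∑ g, tau hU σ γ g • ρ g) * t' = 1) :
    ∃ p : End M, p * p = p ∧ (∀ g, p * ρ g = ρ g * p) ∧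
      (2 : K) • R.H.map (p : M ⟶ M) = 𝟙 _ + R.par M := by
  have hK := R_charZero R
  obtain ⟨s, hs, hsc⟩ := exists_par R hU ρ σ i r hri hCW hγ t' ht
  set q : End M := (2⁻¹ : ℚ) • (1 + s) with hq
  have hqc : ∀ g, q * ρ g = ρ g * q := by
    intro g
    rw [hq, smul_mul_assoc, mul_smul_comm, add_mul, mul_add, hsc, one_mul, mul_one]
  have hRq : (2 : K) • R.H.map (q : M ⟶ M) = 𝟙 _ + R.par M := by
    have e1 : R.H.map (q : M ⟶ M) = ((2⁻¹ : ℚ) : K) • R.H.map ((1 + s : End M) : M ⟶ M) :=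
      map_rat_smul _ _
    have e2 : R.H.map ((1 + s : End M) : M ⟶ M) = 𝟙 _ + R.par M := by
      have e3 : R.H.map ((1 + s : End M) : M ⟶ M) = R.H.map (𝟙 M) + R.H.map (s : M ⟶ M) :=
        R.H.map_add
      rw [e3, R.H.map_id, hs]
    rw [e1, e2, smul_smul]
    push_cast
    rw [mul_inv_cancel₀ two_ne_zero, one_smul]
  have hqq : q * q - q = (4⁻¹ : ℚ) • (s * s - 1) := by
    rw [hq]
    simp only [smul_mul_assoc, mul_smul_comm, add_mul, mul_add, one_mul, mul_one]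
    module
  have hR : R.H.map ((q * q - q : End M) : M ⟶ M) = 0 := by
    rw [hqq]
    have e1 : R.H.map (((4⁻¹ : ℚ) • (s * s - 1) : End M) : M ⟶ M) =
        ((4⁻¹ : ℚ) : K) • R.H.map ((s * s - 1 : End M) : M ⟶ M) := map_rat_smul _ _
    have e2 : R.H.map ((s * s - 1 : End M) : M ⟶ M) = 0 := by
      have e3 : R.H.map ((s * s - 1 : End M) : M ⟶ M) =
          R.H.map ((s : M ⟶ M) ≫ (s : M ⟶ M)) - R.H.map (𝟙 M) := R.H.map_sub
      rw [e3, R.H.map_comp, hs, R.par_sq, R.H.map_id, sub_self]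
    rw [e1, e2, smul_zero]
  have hcc : ∀ g, (q * q - q) * ρ g = ρ g * (q * q - q) := by
    intro g
    rw [sub_mul, mul_sub, mul_assoc, hqc, ← mul_assoc, hqc, mul_assoc]
  obtain ⟨k, hk⟩ := nil_equiv R hU ρ σ i r hir hri hW γ t' ht hR hcc
  obtain ⟨P, g0, h0, h1, h2⟩ := lift_poly k
  have e1 : Polynomial.aeval q (Polynomial.X ^ 2 - Polynomial.X : Polynomial ℚ) = q * q - q := by
    rw [map_sub, map_pow, Polynomial.aeval_X, pow_two]
  refine ⟨Polynomial.aeval q P, ?_, ?_, ?_⟩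
  · have h3 := congrArg (Polynomial.aeval q) h1
    rw [map_sub, map_mul, map_mul, map_pow, e1, pow_succ, hk, zero_mul, zero_mul] at h3
    exact sub_eq_zero.1 h3
  · intro g
    have h3 : Commute q (ρ g) := hqc g
    have h4 : ∀ Q : Polynomial ℚ, Commute (Polynomial.aeval q Q) (ρ g) := by
      intro Q
      induction Q using Polynomial.induction_on' with
      | add a b ha hb =>
        rw [map_add]
        exact ha.add_left hb
      | monomial n c =>
        rw [Polynomial.aeval_monomial]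
        exact (show Commute _ _ from Algebra.commutes c (ρ g)).mul_left (h3.pow_left n)
    exact h4 P
  · have h3 := congrArg (Polynomial.aeval q) h2
    rw [map_sub, map_mul, e1, Polynomial.aeval_X] at h3
    have h4 : R.H.map ((Polynomial.aeval q P : End M) : M ⟶ M) = R.H.map (q : M ⟶ M) := by
      have h5 : R.H.map ((Polynomial.aeval q P - q : End M) : M ⟶ M) = 0 := by
        rw [h3, End.mul_def, R.H.map_comp, hR, comp_zero]
      have h6 : R.H.map ((Polynomial.aeval q P - q : End M) : M ⟶ M) =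
          R.H.map ((Polynomial.aeval q P : End M) : M ⟶ M) - R.H.map (q : M ⟶ M) := R.H.map_sub
      rw [h6, sub_eq_zero] at h5
      exact h5
    rw [h4]
    exact hRq

/-- The action on an equivariant direct summand. -/
def partHom {P : C} (x : P ⟶ M) (y : M ⟶ P) (hxy : x ≫ y = 𝟙 P)
    (hc : ∀ g, (y ≫ x) ≫ (ρ g : M ⟶ M) = (ρ g : M ⟶ M) ≫ (y ≫ x)) : G →* End P where
  toFun g := x ≫ (ρ g : M ⟶ M) ≫ y
  map_one' := by
    have h1 : (ρ 1 : M ⟶ M) = 𝟙 M := map_one ρ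
    rw [h1, Category.id_comp, hxy]
    rfl
  map_mul' g h := by
    have h1 : (ρ (g * h) : M ⟶ M) = (ρ h : M ⟶ M) ≫ (ρ g : M ⟶ M) := map_mul ρ g h
    change x ≫ (ρ (g * h) : M ⟶ M) ≫ y = (x ≫ (ρ h : M ⟶ M) ≫ y) ≫ x ≫ (ρ g : M ⟶ M) ≫ y
    have h2 : (x ≫ (ρ h : M ⟶ M) ≫ y) ≫ x ≫ (ρ g : M ⟶ M) ≫ y =
        x ≫ (ρ h : M ⟶ M) ≫ ((y ≫ x) ≫ (ρ g : M ⟶ M)) ≫ y := by
      simp only [Category.assoc]
    rw [h2, hc, h1]
    simp only [Category.assoc]
    rw [hxy, Category.comp_id]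

/-- Parts of pure parity. -/
lemma part_asym [IsIdempotentComplete C] {W : C} (i : W ⟶ M ⊗ N) (r : M ⊗ N ⟶ W)
    (hri : r ≫ i = diag ρ σ) (hW : IsKimuraFinite W) {P : C} (x : P ⟶ M)
    (y : M ⟶ P) (hxy : x ≫ y = 𝟙 P)
    (hc : ∀ g, (y ≫ x) ≫ (ρ g : M ⟶ M) = (ρ g : M ⟶ M) ≫ (y ≫ x)) {d : ℚ}
    (hd : d * d = 1) (hP : R.par P = (d : K) • 𝟙 _) (γ : End N) (t' : End M)
    (ht : (∑ g, tau hU σ γ g • ρ g) * t' = 1) : ∃ k, asym (-d) P k = 0 := by
  obtain ⟨V, iV, rV, h1, h2⟩ := IsIdempotentComplete.idempotents_split (P ⊗ N)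
    (diag (partHom ρ x y hxy hc) σ) (diag_idem _ _)
  have hV : IsKimuraFinite V := by
    refine hW.retract R hU (iV ≫ (x ▷ N) ≫ r) (i ≫ (y ▷ N) ≫ rV) ?_
    have e1 : (x ▷ N) ≫ diag ρ σ ≫ (y ▷ N) = diag (partHom ρ x y hxy hc) σ := by
      unfold DQ.diag
      rw [Linear.smul_comp, Linear.comp_smul, Preadditive.sum_comp, Preadditive.comp_sum]
      congr 1
      refine sum_congr rfl (fun g _ => ?_)
      rw [← tensorHom_id, ← tensorHom_id, tensorHom_comp_tensorHom, tensorHom_comp_tensorHom,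
        Category.comp_id, Category.id_comp]
      rfl
    have e2 : (iV ≫ (x ▷ N) ≫ r) ≫ i ≫ (y ▷ N) ≫ rV =
        iV ≫ ((x ▷ N) ≫ (r ≫ i) ≫ (y ▷ N)) ≫ rV := by
      simp only [Category.assoc]
    rw [e2, hri, e1, ← h2]
    rw [Category.assoc, h1, Category.comp_id, h1]
  have ht1 : (∑ g, tau hU σ γ g • (partHom ρ x y hxy hc) g) * en (x ≫ (t' : M ⟶ M) ≫ y) = 1 := by
    set t : End M := ∑ g, tau hU σ γ g • ρ g with htdef
    have e1 : (∑ g, tau hU σ γ g • (partHom ρ x y hxy hc) g) = en (x ≫ (t : M ⟶ M) ≫ y) := by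
      have e2 : (t : M ⟶ M) = ∑ g, tau hU σ γ g • (ρ g : M ⟶ M) := rfl
      change _ = x ≫ (t : M ⟶ M) ≫ y
      rw [e2, Preadditive.sum_comp, Preadditive.comp_sum]
      refine sum_congr rfl (fun g _ => ?_)
      rw [Linear.smul_comp, Linear.comp_smul]
      rfl
    have e3 : (y ≫ x) ≫ (t : M ⟶ M) = (t : M ⟶ M) ≫ (y ≫ x) := by
      have e2 : (t : M ⟶ M) = ∑ g, tau hU σ γ g • (ρ g : M ⟶ M) := rfl
      rw [e2, Preadditive.sum_comp, Preadditive.comp_sum]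
      refine sum_congr rfl (fun g _ => ?_)
      rw [Linear.smul_comp, Linear.comp_smul, hc]
    rw [e1]
    change (x ≫ (t' : M ⟶ M) ≫ y) ≫ x ≫ (t : M ⟶ M) ≫ y = 𝟙 P
    have e4 : (x ≫ (t' : M ⟶ M) ≫ y) ≫ x ≫ (t : M ⟶ M) ≫ y =
        x ≫ (t' : M ⟶ M) ≫ ((y ≫ x) ≫ (t : M ⟶ M)) ≫ y := by
      simp only [Category.assoc]
    have e5 : (t' : M ⟶ M) ≫ (t : M ⟶ M) = 𝟙 M := ht
    rw [e4, e3, Category.assoc, ← Category.assoc (t' : M ⟶ M), e5, Category.id_comp,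
      Category.assoc, hxy, Category.comp_id, hxy]
  exact pure_descent R hU (partHom ρ x y hxy hc) σ iV rV h1 h2
    (fun k => (kimura_tp R hU hV k).homNil R hU) hd hP γ _ ht1

include R in
/-- **Descent of Kimura finite-dimensionality.** -/
theorem kimura_left [IsIdempotentComplete C] {W : C} (i : W ⟶ M ⊗ N) (r : M ⊗ N ⟶ W)
    (hir : i ≫ r = 𝟙 W) (hri : r ≫ i = diag ρ σ) (hW : IsKimuraFinite W)
    {γ : End N} (hγ : R.H.map (γ : N ⟶ N) = R.par N) (t' : End M)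
    (ht : (∑ g, tau hU σ γ g • ρ g) * t' = 1) : IsKimuraFinite M := by
  have hK := R_charZero R
  obtain ⟨p, he1, hcp, hRp⟩ : ∃ p : M ⟶ M, p ≫ p = p ∧
      (∀ g, p ≫ (ρ g : M ⟶ M) = (ρ g : M ⟶ M) ≫ p) ∧ (2 : K) • R.H.map p = 𝟙 _ + R.par M := by
    obtain ⟨p, hp, hpc, hRp⟩ := exists_even R hU ρ σ i r hir hri (hW.homNil R hU) (hW.cplus R)
      hγ t' ht
    exact ⟨p, hp, fun g => (hpc g).symm, hRp⟩
  have he' : (𝟙 M - p) ≫ (𝟙 M - p) = 𝟙 M - p := by
    rw [Preadditive.sub_comp, Preadditive.comp_sub, Preadditive.comp_sub, he1]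
    simp
  obtain ⟨E, x, y, h1, h2'⟩ := IsIdempotentComplete.idempotents_split M p he1
  obtain ⟨O, x', y', h3, h4⟩ := IsIdempotentComplete.idempotents_split M (𝟙 M - p) he'
  have hpar : R.par M = (2 : K) • R.H.map p - 𝟙 _ := by
    rw [hRp]
    simp
  have hE : R.par E = (1 : K) • 𝟙 _ := by
    have e1 : R.H.map x ≫ R.par M ≫ R.H.map y = R.par E := by
      rw [← Category.assoc, R.par_natural, Category.assoc, ← Functor.map_comp, h1]
      simp
    rw [← e1, hpar, ← h2', Preadditive.sub_comp, Preadditive.comp_sub, Linear.smul_comp,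
      Linear.comp_smul, Category.id_comp, ← Functor.map_comp, ← Functor.map_comp,
      ← Functor.map_comp]
    have e2 : x ≫ (y ≫ x) ≫ y = 𝟙 E := by
      rw [Category.assoc, reassoc_of% h1, h1]
    rw [e2, h1, CategoryTheory.Functor.map_id]
    module
  have hO : R.par O = (-1 : K) • 𝟙 _ := by
    have e1 : R.H.map x' ≫ R.par M ≫ R.H.map y' = R.par O := by
      rw [← Category.assoc, R.par_natural, Category.assoc, ← Functor.map_comp, h3]
      simp
    have e3 : p = 𝟙 M - y' ≫ x' := by rw [h4]; abel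
    rw [← e1, hpar, Preadditive.sub_comp, Preadditive.comp_sub, Linear.smul_comp,
      Linear.comp_smul, Category.id_comp, ← Functor.map_comp, ← Functor.map_comp,
      ← Functor.map_comp]
    have e2 : x' ≫ p ≫ y' = 0 := by
      rw [e3, Preadditive.sub_comp, Preadditive.comp_sub, Category.id_comp, h3, Category.assoc,
        reassoc_of% h3, h3, sub_self]
    rw [e2, h3, CategoryTheory.Functor.map_id, Functor.map_zero]
    module
  obtain ⟨n, hn⟩ := part_asym R hU ρ σ i r hri hW x y h1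
    (fun g => by rw [h2']; exact hcp g) (d := 1) (by norm_num) (by rw [hE]; norm_num) γ t' ht
  obtain ⟨m, hm⟩ := part_asym R hU ρ σ i r hri hW x' y' h3
    (fun g => by
      rw [h4, Preadditive.sub_comp, Preadditive.comp_sub, hcp g, Category.id_comp,
        Category.comp_id]) (d := -1) (by norm_num) (by rw [hO]; norm_num) γ t' ht
  rw [neg_neg] at hm
  exact (isKimuraFinite_iff M).2 ⟨E, O, x, y, x', y', h1, h3, by rw [h2', h4]; abel,
    ⟨n, hn⟩, m, hm⟩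

/-- All types of `G` occur in the dual of `R(N)`: no nonzero element of `K[G]` acts on it as zero. -/
def AllTypes (σ : G →* End N) : Prop := ∀ y : MonoidAlgebra K G, dualAct R σ y = 0 → y = 0

include R in
/-- The characters of `N` are invertible if all types occur. -/
lemma exists_inv (hσ : AllTypes R σ) {γ : End N} (hγ : R.H.map (γ : N ⟶ N) = R.par N) :
    ∃ t' : End M, (∑ g, tau hU σ γ g • ρ g) * t' = 1 := by
  have hK := R_charZero R
  have hfin := R.finite N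
  set T : MonoidAlgebra ℚ G := mk (tau hU σ γ) with hT
  obtain ⟨z, hz⟩ := regular T
  set y : MonoidAlgebra ℚ G := 1 - T * z with hy
  have hyT : y * T = 0 := by
    rw [hy, sub_mul, one_mul, hz, sub_self]
  set yK : MonoidAlgebra K G := mk (fun g => (y.coeff g : K)) with hyK
  have hcoe : ∀ g, (chr (rep R σ) 1).coeff g = ((T.coeff g : ℚ) : K) := by
    intro g
    rw [hT, coeff_mk, tau_eq R hU σ hγ]
    simp only [chr, coeff_mk, mul_one]
    rfl
  have h1 : yK * chr (rep R σ) 1 = 0 := by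
    refine ext_coeff (fun h => ?_)
    rw [DQ.coeff_mul']
    have h2 : (y * T).coeff h = 0 := by
      rw [hyT]
      rfl
    rw [DQ.coeff_mul'] at h2
    have h3 : ((∑ g, y.coeff g * T.coeff (g⁻¹ * h) : ℚ) : K) = 0 := by
      rw [h2]
      simp
    push_cast at h3
    have h4 : (0 : MonoidAlgebra K G).coeff h = 0 := rfl
    rw [h4, ← h3]
    refine sum_congr rfl (fun g _ => ?_)
    rw [hcoe, hyK, coeff_mk]
  have h2 : chr (rep R σ) 1 * yK = 0 := by
    rw [chr_comm _ 1 (fun g => by rw [mul_one, one_mul])]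
    exact h1
  have h3 := hσ yK ((dualAct_zero_iff R σ yK).2 (hat_zero _ h2))
  have h4 : y = 0 := by
    refine ext_coeff (fun g => ?_)
    have h5 := congrArg (fun a => MonoidAlgebra.coeff a g) h3
    simp only [hyK, coeff_mk] at h5
    have h6 : ((y.coeff g : ℚ) : K) = 0 := h5
    rw [Rat.cast_eq_zero] at h6
    rw [h6]
    rfl
  have h5 : T * z = 1 := by
    rw [hy, sub_eq_zero] at h4
    exact h4.symm
  refine ⟨ev ρ z, ?_⟩
  have h6 := congrArg (ev ρ) h5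
  rw [ev_mul, ev_one] at h6
  have h7 : ev ρ T = ∑ g, tau hU σ γ g • ρ g := by
    unfold ev
    refine sum_congr rfl (fun g _ => ?_)
    rw [hT, coeff_mk]
  rwa [h7] at h6

end

end Pool.Agent.V8H87.DK
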