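import Pool.Agent.V8H87.GG.Tower
import Pool.Agent.V8H87.DQ.Reg

/-!
# Towers of algebras: actions of wreath products
-/

set_option autoImplicit false
set_option linter.unusedSectionVars false

open Equiv Finset
open Pool.Agent.V8H87.GG

namespace Pool.Agent.V8H87.DK

section

variable {A : ℕ → Type*} [∀ n, Ring (A n)] [∀ n, Algebra ℚ (A n)] {E : Type*} [Ring E]
    [Algebra ℚ E] (T : TT A E)

lemma H_smul : ∀ {n : ℕ} (c : Fin n → ℚ) (y : Fin n → E),
    T.H n (fun i => c i • y i) = (∏ i, c i) • T.H n y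
  | 0, c, y => by simp [TT.H]
  | n + 1, c, y => by
    rw [TT.H_succ, TT.H_succ]
    have h1 : (fun i => c i • y i) ∘ Fin.succ = fun i => (c ∘ Fin.succ) i • (y ∘ Fin.succ) i := rfl
    rw [h1, H_smul (c ∘ Fin.succ) (y ∘ Fin.succ), map_smul, map_smul, smul_mul_smul_comm,
      Fin.prod_univ_succ, mul_comm (c 0)]
    rfl

lemma H_sum {G : Type*} [Fintype G] : ∀ {n : ℕ} (f : Fin n → G → E),
    T.H n (fun i => ∑ g, f i g) = ∑ g : Fin n → G, T.H n (fun i => f i (g i))
  | 0, f => by simp [TT.H]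
  | n + 1, f => by
    rw [TT.H_succ]
    have h1 : (fun i => ∑ g, f i g) ∘ Fin.succ = fun i => ∑ g, (f ∘ Fin.succ) i g := rfl
    rw [h1, H_sum (f ∘ Fin.succ), map_sum, map_sum, sum_mul_sum, sum_comm,
      ← Equiv.sum_comp (Fin.consEquiv (fun _ : Fin (n + 1) => G)), Fintype.sum_prod_type]
    refine sum_congr rfl (fun a _ => sum_congr rfl (fun g _ => ?_))
    rw [TT.H_succ]
    rfl

lemma tr_H : ∀ {n : ℕ} (y : Fin n → E), T.tr n (T.H n y) = ∏ i, T.trE (y i)
  | 0, y => by
    have h1 : T.H 0 y = 1 := rfl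
    rw [h1, T.tr_one]
    simp
  | n + 1, y => by
    rw [TT.H_succ, ← T.tr_pt, T.pt_left, T.pt_j, mul_smul_comm, mul_one, map_smul, tr_H,
      Fin.prod_univ_succ, smul_eq_mul]
    rfl

/-- The permutations act on the tuples. -/
def perF (G : Type*) [Group G] (n : ℕ) : Perm (Fin n) →* MulAut (Fin n → G) where
  toFun s :=
    { toFun := fun f => f ∘ ⇑(s⁻¹)
      invFun := fun f => f ∘ ⇑s
      left_inv := fun f => by
        funext i
        simp
      right_inv := fun f => by
        funext i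
        simp
      map_mul' := fun f g => rfl }
  map_one' := by
    ext f i
    rfl
  map_mul' s t := by
    ext f i
    simp [mul_inv_rev]

variable {T}

/-- The action of the wreath product. -/
def wr {G : Type*} [Group G] (T : TT A E) (ρ : G →* E) (n : ℕ) :
    SemidirectProduct (Fin n → G) (Perm (Fin n)) (perF G n) →* A n where
  toFun x := T.H n (ρ ∘ x.left) * T.th n x.right
  map_one' := by
    have h1 : ((ρ : G → E) ∘ (1 : SemidirectProduct (Fin n → G) (Perm (Fin n)) (perF G n)).left) =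
        1 := by
      funext i
      exact map_one ρ
    rw [h1, TT.H_one, SemidirectProduct.one_right, map_one, one_mul]
  map_mul' x y := by
    have h1 : ((ρ : G → E) ∘ (x * y).left) = (ρ ∘ x.left) * ((ρ ∘ y.left) ∘ ⇑(x.right⁻¹)) := by
      funext i
      exact map_mul ρ _ _
    rw [h1, TT.H_mul, SemidirectProduct.mul_right, map_mul, mul_assoc (T.H n (ρ ∘ x.left)),
      ← mul_assoc (T.H n ((ρ ∘ y.left) ∘ ⇑(x.right⁻¹))), ← TT.th_H]
    simp only [mul_assoc]

/-- The range of a homomorphism from the group algebra of a finite group is von Neumann regular. -/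
lemma range_regular {B : Type*} [Ring B] [Algebra ℚ B] {Γ : Type*} [Group Γ] [Fintype Γ]
    (θ : Γ →* B) : ∀ w ∈ (MonoidAlgebra.lift ℚ B Γ θ).range,
      ∃ u ∈ (MonoidAlgebra.lift ℚ B Γ θ).range, w * u * w = w := by
  rintro _ ⟨y, rfl⟩
  obtain ⟨z, hz⟩ := DQ.regular y
  refine ⟨MonoidAlgebra.lift ℚ B Γ θ z, ⟨z, rfl⟩, ?_⟩
  have h1 := congrArg (MonoidAlgebra.lift ℚ B Γ θ) hz
  rw [map_mul, map_mul] at h1
  exact h1

end

end Pool.Agent.V8H87.DK
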