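import Pool.Agent.V8H87.GG.Ten
import Pool.Agent.V8H87.DQ.Grp
import Pool.Agent.V8H87.DK.Wr
import Pool.Agent.K3h8.SF.Pure

/-!
# Exterior powers of objects of pure parity and diagonal quotients
-/

set_option autoImplicit false
set_option linter.unusedSectionVars false

open CategoryTheory Limits MonoidalCategory Module Equiv Finset
open Pool.Agent.Y112.SR Pool.Agent.Y112.KD Pool.Agent.R905 Pool.Agent.K3h8.KS Pool.Agent.K3h8.SF
open Pool.Agent.V8H87.GG Pool.Agent.V8H87.DQ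
open Pool.Agent.Y116.MT (tr)

namespace Pool.Agent.V8H87.DK

universe v u w

section

variable {C : Type u} [Category.{v} C] [Preadditive C] [Linear ℚ C] [MonoidalCategory C]
  [MonoidalPreadditive C] [MonoidalLinear ℚ C] [SymmetricCategory C]
  [RightRigidCategory C] {K : Type w} [Field K] (R : SuperRealisation C K) (hU : UnitQ C)

/-- The tensor product of endomorphisms. -/
def th2 {X Y : C} (a : End X) (b : End Y) : End (X ⊗ Y) := ((a : X ⟶ X) ⊗ₘ (b : Y ⟶ Y))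

lemma th2_mul {X Y : C} (a a' : End X) (b b' : End Y) :
    th2 a b * th2 a' b' = th2 (a * a') (b * b') :=
  tensorHom_comp_tensorHom (a' : X ⟶ X) (b' : Y ⟶ Y) (a : X ⟶ X) (b : Y ⟶ Y)

lemma th2_one {X Y : C} : th2 (1 : End X) (1 : End Y) = 1 :=
  id_tensorHom_id X Y

lemma H_tensor (X : C) {n : ℕ} (y : Fin (n + 1) → End X) :
    ((tower R hU X).H (n + 1) y : tp X (n + 1) ⟶ tp X (n + 1)) =
      (((tower R hU X).H n (y ∘ Fin.succ) : tp X n ⟶ tp X n) ⊗ₘ (y 0 : X ⟶ X)) := by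
  have h1 : (tower R hU X).H (n + 1) y =
      ((tp X n ◁ (y 0 : X ⟶ X)) ≫
        (((tower R hU X).H n (y ∘ Fin.succ) : tp X n ⟶ tp X n) ▷ X) : tp X (n + 1) ⟶ _) := rfl
  rw [h1, ← tensorHom_def']

lemma zip_H (X Y : C) : ∀ (n : ℕ) (a : Fin n → End X) (b : Fin n → End Y),
    ((tower R hU (X ⊗ Y)).H n (fun i => th2 (a i) (b i)) : tp (X ⊗ Y) n ⟶ tp (X ⊗ Y) n) ≫
      zip X Y n = zip X Y n ≫ (((tower R hU X).H n a : tp X n ⟶ tp X n) ⊗ₘ
        ((tower R hU Y).H n b : tp Y n ⟶ tp Y n))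
  | 0, a, b => by
    have h1 : ((tower R hU (X ⊗ Y)).H 0 (fun i => th2 (a i) (b i)) :
        tp (X ⊗ Y) 0 ⟶ tp (X ⊗ Y) 0) = 𝟙 _ := rfl
    have h2 : ((tower R hU X).H 0 a : tp X 0 ⟶ tp X 0) = 𝟙 _ := rfl
    have h3 : ((tower R hU Y).H 0 b : tp Y 0 ⟶ tp Y 0) = 𝟙 _ := rfl
    rw [h1, h2, h3, Category.id_comp, id_tensorHom_id, Category.comp_id]
  | n + 1, a, b => by
    have ih := zip_H X Y n (a ∘ Fin.succ) (b ∘ Fin.succ)
    rw [H_tensor, H_tensor, H_tensor, zip_succ]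
    have h1 : ((fun i => th2 (a i) (b i)) ∘ Fin.succ) =
      fun i => th2 ((a ∘ Fin.succ) i) ((b ∘ Fin.succ) i) := rfl
    rw [h1]
    rw [← tensorHom_id, ← Category.assoc, tensorHom_comp_tensorHom, ih, Category.comp_id]
    have h2 : (zip X Y n ≫ (((tower R hU X).H n (a ∘ Fin.succ) : tp X n ⟶ tp X n) ⊗ₘ
        ((tower R hU Y).H n (b ∘ Fin.succ) : tp Y n ⟶ tp Y n)) ⊗ₘ
          (th2 (a 0) (b 0) : X ⊗ Y ⟶ X ⊗ Y)) =
        (zip X Y n ⊗ₘ 𝟙 (X ⊗ Y)) ≫ ((((tower R hU X).H n (a ∘ Fin.succ) : tp X n ⟶ tp X n) ⊗ₘ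
        ((tower R hU Y).H n (b ∘ Fin.succ) : tp Y n ⟶ tp Y n)) ⊗ₘ
          (th2 (a 0) (b 0) : X ⊗ Y ⟶ X ⊗ Y)) := by
      rw [tensorHom_comp_tensorHom, Category.id_comp]
    rw [h2, Category.assoc, Category.assoc]
    congr 1
    exact tensorμ_natural _ _ _ _

variable {G : Type} [Group G] [Fintype G] {X Y : C} (ρ : G →* End X) (σ : G →* End Y)

/-- The action of the wreath product on the powers. -/
noncomputable def big (n : ℕ) :
    (SemidirectProduct (Fin n → G) (Perm (Fin n)) (perF G n)) × (Fin n → G) →*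
      End (tp X n ⊗ tp Y n) where
  toFun x := th2 (wr (tower R hU X) ρ n x.1) ((tower R hU Y).H n (σ ∘ x.2))
  map_one' := by
    have h1 : ((σ : G → End Y) ∘ (1 : (SemidirectProduct (Fin n → G) (Perm (Fin n))
        (perF G n)) × (Fin n → G)).2) = 1 := by
      funext i
      exact map_one σ
    rw [h1, TT.H_one, Prod.fst_one, map_one, th2_one]
  map_mul' x y := by
    have h1 : ((σ : G → End Y) ∘ (x * y).2) = (σ ∘ x.2) * (σ ∘ y.2) := by
      funext i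
      exact map_mul σ _ _
    rw [h1, TT.H_mul, Prod.fst_mul, map_mul, th2_mul]

noncomputable instance (n : ℕ) : Fintype (SemidirectProduct (Fin n → G) (Perm (Fin n)) (perF G n)) :=
  Fintype.ofInjective (fun x => ((x.left, x.right) : (Fin n → G) × Perm (Fin n)))
    (fun x y h => SemidirectProduct.ext (congrArg Prod.fst h) (congrArg Prod.snd h)) 

/-- The algebra generated by the wreath product. -/
noncomputable def bigAlg (n : ℕ) : Subalgebra ℚ (End (tp X n ⊗ tp Y n)) :=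
  (MonoidAlgebra.lift ℚ (End (tp X n ⊗ tp Y n)) _ (big R hU ρ σ n)).range

lemma big_mem (n : ℕ) (x) : big R hU ρ σ n x ∈ bigAlg R hU ρ σ n :=
  ⟨MonoidAlgebra.of ℚ _ x, MonoidAlgebra.lift_of _ _⟩

lemma H_mem (n : ℕ) (g : Fin n → G) : th2 ((tower R hU X).H n (ρ ∘ g))
    ((tower R hU Y).H n (σ ∘ g)) ∈ bigAlg R hU ρ σ n := by
  have h1 := big_mem R hU ρ σ n (⟨g, 1⟩, g)
  have h2 : big R hU ρ σ n (⟨g, 1⟩, g) = th2 ((tower R hU X).H n (ρ ∘ g))
      ((tower R hU Y).H n (σ ∘ g)) := by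
    change th2 ((tower R hU X).H n (ρ ∘ g) * (tower R hU X).th n 1) _ = _
    rw [map_one, mul_one]
  rwa [h2] at h1

lemma th_mem (n : ℕ) (s : Perm (Fin n)) : th2 ((tower R hU X).th n s) (1 : End (tp Y n)) ∈
    bigAlg R hU ρ σ n := by
  have h1 := big_mem R hU ρ σ n (⟨1, s⟩, 1)
  have h2 : big R hU ρ σ n (⟨1, s⟩, 1) = th2 ((tower R hU X).th n s) (1 : End (tp Y n)) := by
    change th2 ((tower R hU X).H n (ρ ∘ 1) * (tower R hU X).th n s)
      ((tower R hU Y).H n (σ ∘ 1)) = _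
    have h3 : ((ρ : G → End X) ∘ (1 : Fin n → G)) = 1 := by
      funext i
      exact map_one ρ
    have h4 : ((σ : G → End Y) ∘ (1 : Fin n → G)) = 1 := by
      funext i
      exact map_one σ
    rw [h3, h4, TT.H_one, TT.H_one, one_mul]
  rwa [h2] at h1

lemma th2_left (n : ℕ) (a : End (tp X n)) : th2 a (1 : End (tp Y n)) = wR (tp X n) (tp Y n) a :=
  tensorHom_id _ _

lemma perm_mem (n : ℕ) {a : End (tp X n)} (ha : a ∈ permAlg X n) :
    wR (tp X n) (tp Y n) a ∈ bigAlg R hU ρ σ n := by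
  have h1 : a ∈ Submodule.span ℚ (Set.range (pm R hU X n)) := by
    rw [← permAlg_eq]
    exact ha
  have h2 : Submodule.span ℚ (Set.range (pm R hU X n)) ≤
      (Subalgebra.toSubmodule (bigAlg R hU ρ σ n)).comap (wR (tp X n) (tp Y n)).toLinearMap := by
    rw [Submodule.span_le]
    rintro _ ⟨s, rfl⟩
    have h3 := th_mem R hU ρ σ n s
    rw [th2_left] at h3
    exact h3
  exact h2 h1

/-- The power of the projector. -/
lemma proj_eq (n : ℕ) : unzip X Y n ≫ tpm (diag ρ σ) n ≫ zip X Y n =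
    ((Fintype.card G : ℚ)⁻¹ ^ n) • ∑ g : Fin n → G,
      (((tower R hU X).H n (ρ ∘ g) : tp X n ⟶ tp X n) ⊗ₘ
        ((tower R hU Y).H n (σ ∘ g) : tp Y n ⟶ tp Y n)) := by
  have h1 : tpm (diag ρ σ) n = (((Fintype.card G : ℚ)⁻¹ ^ n) • ∑ g : Fin n → G,
      (tower R hU (X ⊗ Y)).H n (fun i => th2 (ρ (g i)) (σ (g i))) : End (tp (X ⊗ Y) n)) := by
    rw [tpm_eq_H R hU (X ⊗ Y) (diag ρ σ)]
    have h2 : (fun _ : Fin n => (diag ρ σ : End (X ⊗ Y))) =
        fun _ : Fin n => (Fintype.card G : ℚ)⁻¹ • ∑ g, th2 (ρ g) (σ g) := rfl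
    rw [h2, H_smul, H_sum]
    simp
  rw [h1]
  have h2 : unzip X Y n ≫ (((Fintype.card G : ℚ)⁻¹ ^ n) • ∑ g : Fin n → G,
      (tower R hU (X ⊗ Y)).H n (fun i => th2 (ρ (g i)) (σ (g i))) :
        tp (X ⊗ Y) n ⟶ tp (X ⊗ Y) n) ≫ zip X Y n =
      ((Fintype.card G : ℚ)⁻¹ ^ n) • ∑ g : Fin n → G, (unzip X Y n ≫
        ((tower R hU (X ⊗ Y)).H n (fun i => th2 (ρ (g i)) (σ (g i))) :
        tp (X ⊗ Y) n ⟶ tp (X ⊗ Y) n) ≫ zip X Y n) := by
    rw [Linear.smul_comp, Linear.comp_smul, Preadditive.sum_comp, Preadditive.comp_sum]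
  refine h2.trans ?_
  congr 1
  refine sum_congr rfl (fun g _ => ?_)
  have h3 := zip_H R hU X Y n (ρ ∘ g) (σ ∘ g)
  have h4 : (fun i => th2 (((ρ : G → End X) ∘ g) i) (((σ : G → End Y) ∘ g) i)) =
    fun i => th2 (ρ (g i)) (σ (g i)) := rfl
  rw [h4] at h3
  rw [h3, ← Category.assoc, unzip_zip, Category.id_comp]

lemma proj_mem (n : ℕ) : en (unzip X Y n ≫ tpm (diag ρ σ) n ≫ zip X Y n) ∈
    bigAlg R hU ρ σ n := by
  rw [proj_eq R hU]
  exact Subalgebra.smul_mem _ (Subalgebra.sum_mem _ (fun g _ => H_mem R hU ρ σ n g)) _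

include R hU in
/-- **Exterior powers for objects of pure parity.** -/
theorem pure_descent [IsIdempotentComplete C] {W : C} (i : W ⟶ X ⊗ Y) (r : X ⊗ Y ⟶ W)
    (hir : i ≫ r = 𝟙 W) (hri : r ≫ i = diag ρ σ) (hW : ∀ k, HomNil R (tp W k)) {d : ℚ}
    (hd : d * d = 1) (hX : R.par X = (d : K) • 𝟙 _) (γ : End Y) (t' : End X)
    (ht : (∑ g, trq hU Y (σ g * γ) • ρ g) * t' = 1) : ∃ k, asym (-d) X k = 0 := by
  obtain ⟨k, hk⟩ := map_asym_zero R hU hd hX
  refine ⟨k, ?_⟩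
  set a : tp X k ⟶ tp X k := asym (-d) X k with ha
  -- the projector and its retraction
  set q : tp X k ⊗ tp Y k ⟶ tp W k := unzip X Y k ≫ tpm r k with hq
  set j : tp W k ⟶ tp X k ⊗ tp Y k := tpm i k ≫ zip X Y k with hj
  have hjq : j ≫ q = 𝟙 _ := by
    rw [hj, hq, Category.assoc, ← Category.assoc (zip X Y k), zip_unzip, Category.id_comp,
      tpm_comp, hir, tpm_id]
  have hqj : q ≫ j = unzip X Y k ≫ tpm (diag ρ σ) k ≫ zip X Y k := by
    rw [hj, hq, Category.assoc, ← Category.assoc (tpm r k), tpm_comp, hri]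
  have h1 : (q ≫ j) ≫ (a ▷ tp Y k) = 0 := by
    refine lemw R (bigAlg R hU ρ σ k) (range_regular _) q j hjq ?_ ?_ (hW k) ?_
    · rw [hqj]
      exact proj_mem R hU ρ σ k
    · exact perm_mem R hU ρ σ k (asym_mem_adjoin (-d) X k)
    · rw [Functor.map_comp, map_whisker_zero R a hk, comp_zero]
  -- contraction
  set Hγ : tp Y k ⟶ tp Y k := (tower R hU Y).H k (fun _ => γ) with hHγ
  have h2 : ptr ((tp X k ◁ Hγ ≫ (q ≫ j)) ≫ (a ▷ tp Y k)) = 0 := by
    rw [Category.assoc, h1, comp_zero]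
    exact (ptrL (tp X k) (tp Y k)).map_zero
  rw [ptr_comp_right, hqj, proj_eq R hU] at h2
  have h3 : tp X k ◁ Hγ ≫ (((Fintype.card G : ℚ)⁻¹ ^ k) • ∑ g : Fin k → G,
      (((tower R hU X).H k (ρ ∘ g) : tp X k ⟶ tp X k) ⊗ₘ
        ((tower R hU Y).H k (σ ∘ g) : tp Y k ⟶ tp Y k))) =
      ((Fintype.card G : ℚ)⁻¹ ^ k) • ∑ g : Fin k → G,
      (((tower R hU X).H k (ρ ∘ g) : tp X k ⟶ tp X k) ⊗ₘ
        ((tower R hU Y).H k (fun l => σ (g l) * γ) : tp Y k ⟶ tp Y k)) := by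
    rw [Linear.comp_smul, Preadditive.comp_sum]
    congr 1
    refine sum_congr rfl (fun g _ => ?_)
    rw [← id_tensorHom, tensorHom_comp_tensorHom, Category.id_comp]
    congr 1
    have h4 : (fun l => σ (g l) * γ) = (σ ∘ g) * (fun _ => γ) := rfl
    rw [h4, TT.H_mul]
    rfl
  have h5 : ptr (tp X k ◁ Hγ ≫ (((Fintype.card G : ℚ)⁻¹ ^ k) • ∑ g : Fin k → G,
      (((tower R hU X).H k (ρ ∘ g) : tp X k ⟶ tp X k) ⊗ₘ
        ((tower R hU Y).H k (σ ∘ g) : tp Y k ⟶ tp Y k)))) =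
      ((Fintype.card G : ℚ)⁻¹ ^ k) •
        ((tower R hU X).H k (fun _ => ∑ g, trq hU Y (σ g * γ) • ρ g) : tp X k ⟶ tp X k) := by
    rw [h3]
    have h6 := (ptrL (tp X k) (tp Y k)).map_smul ((Fintype.card G : ℚ)⁻¹ ^ k)
      (∑ g : Fin k → G, (((tower R hU X).H k (ρ ∘ g) : tp X k ⟶ tp X k) ⊗ₘ
        ((tower R hU Y).H k (fun l => σ (g l) * γ) : tp Y k ⟶ tp Y k)))
    refine h6.trans ?_
    congr 1
    rw [map_sum]
    have h7 : (fun _ : Fin k => ∑ g, trq hU Y (σ g * γ) • ρ g) =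
        fun l : Fin k => ∑ g, (fun (_ : Fin k) (g : G) => trq hU Y (σ g * γ) • ρ g) l g := rfl
    rw [h7, H_sum]
    refine sum_congr rfl (fun g _ => ?_)
    have h8 : (tower R hU X).H k (fun l => trq hU Y (σ (g l) * γ) • ρ (g l)) =
        (∏ l, trq hU Y (σ (g l) * γ)) • (tower R hU X).H k (ρ ∘ g) :=
      H_smul (tower R hU X) (fun l => trq hU Y (σ (g l) * γ)) (ρ ∘ g)
    refine Eq.trans ?_ h8.symm
    refine ptr_tensor _ _ _ ?_
    have h9 := trq_spec hU (X := tp Y k) ((tower R hU Y).H k (fun l => σ (g l) * γ))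
    have h10 : trq hU (tp Y k) ((tower R hU Y).H k (fun l => σ (g l) * γ)) =
        ∏ l, trq hU Y (σ (g l) * γ) := tr_H (tower R hU Y) (fun l => σ (g l) * γ)
    rw [h10] at h9
    exact h9
  rw [h5, Linear.smul_comp] at h2
  have hc : (Fintype.card G : ℚ)⁻¹ ^ k ≠ 0 :=
    pow_ne_zero _ (inv_ne_zero (Nat.cast_ne_zero.2 Fintype.card_ne_zero))
  have h6 := (smul_eq_zero.1 h2).resolve_left hc
  have h7 : (en a * (tower R hU X).H k (fun _ => ∑ g, trq hU Y (σ g * γ) • ρ g)) *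
      (tower R hU X).H k (fun _ => t') = 0 := by
    have h8 : en a * (tower R hU X).H k (fun _ => ∑ g, trq hU Y (σ g * γ) • ρ g) = 0 := h6
    rw [h8, zero_mul]
  rw [mul_assoc, ← TT.H_mul] at h7
  have h8 : ((fun _ : Fin k => ∑ g, trq hU Y (σ g * γ) • ρ g) * fun _ : Fin k => t') = 1 := by
    funext l
    exact ht
  rw [h8, TT.H_one, mul_one] at h7
  exact h7

end

end Pool.Agent.V8H87.DK
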