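import Pool.Agent.V8H87.DK.Main

/-!
# The part of an object made of given types
-/

set_option autoImplicit false
set_option linter.unusedSectionVars false

open CategoryTheory Limits MonoidalCategory Module Equiv Finset
open Pool.Agent.Y112.SR Pool.Agent.Y112.KD Pool.Agent.R905 Pool.Agent.K3h8.KS Pool.Agent.K3h8.SF
open Pool.Agent.V8H87.GG Pool.Agent.V8H87.DQ
open Pool.Agent.Y116.MT (tr)
open Functor.LaxMonoidal Functor.OplaxMonoidal

namespace Pool.Agent.V8H87.DK

universe v u w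

section

variable {K : Type w} [Field K] [CharZero K] {G : Type} [Group G] [Fintype G]

/-- An element of `ℚ[G]` as an element of `K[G]`. -/
noncomputable def cst (K : Type w) [Field K] (c : MonoidAlgebra ℚ G) : MonoidAlgebra K G :=
  mk fun g => (c.coeff g : K)

lemma cst_mul (a b : MonoidAlgebra ℚ G) : cst K (a * b) = cst K a * cst K b := by
  refine ext_coeff (fun h => ?_)
  rw [DQ.coeff_mul', cst, coeff_mk, DQ.coeff_mul']
  push_cast
  refine sum_congr rfl (fun g _ => ?_)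
  rw [cst, cst, coeff_mk, coeff_mk]

lemma cst_inj {a b : MonoidAlgebra ℚ G} (h : cst K a = cst K b) : a = b := by
  refine ext_coeff (fun g => ?_)
  have h1 := congrArg (fun x => MonoidAlgebra.coeff x g) h
  simp only [cst, coeff_mk] at h1
  exact Rat.cast_injective (α := K) h1

lemma cst_zero : cst K (0 : MonoidAlgebra ℚ G) = 0 := by
  refine ext_coeff (fun g => ?_)
  rw [cst, coeff_mk]
  exact Rat.cast_zero

end

section

variable {C : Type u} [Category.{v} C] [Preadditive C] [Linear ℚ C] [MonoidalCategory C]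
  [MonoidalPreadditive C] [MonoidalLinear ℚ C] [SymmetricCategory C]
  [RightRigidCategory C] {K : Type w} [Field K] (R : SuperRealisation C K) (hU : UnitQ C)
  {G : Type} [Group G] [Fintype G] {M N : C} (ρ : G →* End M) (σ : G →* End N)

/-- The element of `ℚ[G]` is a combination of types which occur in the dual of `R(N)`. -/
def SeenQ (c : MonoidAlgebra ℚ G) : Prop := Seen R σ (cst K c)

/-- The action of an element of `ℚ[G]` on `M`. -/
noncomputable def evm (ρ : G →* End M) (c : MonoidAlgebra ℚ G) : M ⟶ M :=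
  ∑ g, c.coeff g • (ρ g : M ⟶ M)

/-- The direct summand of `M` cut out by the idempotent `c` of `ℚ[G]` is Kimura
finite-dimensional. -/
def PartFinite (ρ : G →* End M) (c : MonoidAlgebra ℚ G) : Prop :=
  ∀ (P : C) (x : P ⟶ M) (y : M ⟶ P), x ≫ y = 𝟙 P → y ≫ x = evm ρ c → IsKimuraFinite P

lemma evm_mul (a b : MonoidAlgebra ℚ G) : evm ρ (a * b) = evm ρ b ≫ evm ρ a := by
  have h1 := ev_mul ρ a b
  exact h1

lemma evm_one : evm ρ (1 : MonoidAlgebra ℚ G) = 𝟙 M := by
  have h1 : ev ρ (1 : MonoidAlgebra ℚ G) = 1 := ev_one ρ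
  exact h1

lemma evm_mk (f : G → ℚ) : evm ρ (mk f) = ∑ g, f g • (ρ g : M ⟶ M) := by
  unfold evm
  refine sum_congr rfl (fun g _ => ?_)
  rw [coeff_mk]

lemma evm_single (g : G) : evm ρ (MonoidAlgebra.single g (1 : ℚ)) = ρ g := by
  classical
  unfold evm
  rw [sum_eq_single g]
  · rw [MonoidAlgebra.coeff_single, Finsupp.single_eq_same, one_smul]
  · intro h _ hh
    rw [MonoidAlgebra.coeff_single, Finsupp.single_eq_of_ne hh, zero_smul]
  · intro h
    exact absurd (mem_univ _) h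

include R in
/-- The unit of the seen part. -/
lemma exists_c {γ : End N} (hγ : R.H.map (γ : N ⟶ N) = R.par N) :
    ∃ c z : MonoidAlgebra ℚ G, mk (tau hU σ γ) * z = c ∧ c * c = c ∧ (∀ a, c * a = a * c) ∧
      SeenQ R σ c ∧ hat (rep R σ) (cst K (1 - c)) = 0 := by
  have hK := R_charZero R
  have hfin := R.finite N
  set T : MonoidAlgebra ℚ G := mk (tau hU σ γ) with hT
  obtain ⟨z, hz⟩ := regular T
  have hchr : cst K T = chr (rep R σ) 1 := by
    refine ext_coeff (fun g => ?_)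
    rw [cst, coeff_mk, hT, coeff_mk, tau_eq R hU σ hγ]
    simp only [chr, coeff_mk, mul_one]
    rfl
  have hcen : ∀ a : MonoidAlgebra K G, chr (rep R σ) 1 * a = a * chr (rep R σ) 1 :=
    chr_comm _ 1 (fun g => by rw [mul_one, one_mul])
  have hT' : ∀ a : MonoidAlgebra ℚ G, T * a = a * T := by
    intro a
    apply cst_inj (K := K)
    rw [cst_mul, cst_mul, hchr, hcen]
  have hc1 : (1 - T * z) * T = 0 := by rw [sub_mul, one_mul, hz, sub_self]
  refine ⟨T * z, z, rfl, ?_, ?_, ?_, ?_⟩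
  · rw [← mul_assoc, hz]
  · intro a
    have h1 : (1 - T * z) * (a * (T * z)) = 0 := by
      rw [← mul_assoc a, ← hT' a, ← mul_assoc, ← mul_assoc, hc1, zero_mul, zero_mul]
    have h2 : (T * z) * (a * (1 - T * z)) = 0 := by
      have e1 : T * (1 - T * z) = 0 := by rw [hT', hc1]
      generalize 1 - T * z = u at e1
      rw [hT' z, mul_assoc, ← mul_assoc T, hT' a, mul_assoc, e1, mul_zero, mul_zero]
    have h3 : a * (T * z) = T * z * a * (T * z) := by
      rw [sub_mul, one_mul, sub_eq_zero, ← mul_assoc] at h1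
      rw [mul_assoc (T * z) a] 
      rw [← mul_assoc a]
      exact h1
    have h4 : T * z * a = T * z * a * (T * z) := by
      rw [mul_sub, mul_one, mul_sub, sub_eq_zero] at h2
      rw [mul_assoc (T * z) a]
      exact h2
    exact h4.trans h3.symm
  · intro y hy
    rw [cst_mul, hchr, hcen, mul_assoc]
    rw [chr_mul_zero _ 1 ((dualAct_zero_iff R σ y).1 hy), mul_zero]
  · apply hat_zero
    rw [hcen, ← hchr, ← cst_mul, hc1, cst_zero]

include R hU in
/-- The seen part of `M` is Kimura finite if the diagonal quotient is. -/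
theorem part_finite [IsIdempotentComplete C] {W : C} (i : W ⟶ M ⊗ N) (r : M ⊗ N ⟶ W)
    (hri : r ≫ i = diag ρ σ) (hW : IsKimuraFinite W) (hN : R.CPlus N) {c : MonoidAlgebra ℚ G}
    (hc : SeenQ R σ c) : PartFinite ρ c := by
  have hK := R_charZero R
  obtain ⟨γ, hγ⟩ := (Pool.Agent.Y112.SR.cplus_iff R N).1 hN
  obtain ⟨e, z, hz, he, hcen, -, hhat⟩ := exists_c R hU σ (γ := γ) hγ
  -- the part cut out by the unit
  have hee : evm ρ e ≫ evm ρ e = evm ρ e := by rw [← evm_mul, he]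
  obtain ⟨P, x, y, hxy, hyx⟩ := IsIdempotentComplete.idempotents_split M (evm ρ e) hee
  have hevc : ∀ a : MonoidAlgebra ℚ G, evm ρ e ≫ evm ρ a = evm ρ a ≫ evm ρ e := by
    intro a
    rw [← evm_mul, ← evm_mul, hcen]
  have hcomm : ∀ g, (y ≫ x) ≫ (ρ g : M ⟶ M) = (ρ g : M ⟶ M) ≫ (y ≫ x) := by
    intro g
    rw [hyx]
    have h1 := hevc (MonoidAlgebra.single g (1 : ℚ))
    rw [evm_single] at h1
    exact h1
  obtain ⟨V, iV, rV, h1, h2⟩ := IsIdempotentComplete.idempotents_split (P ⊗ N)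
    (diag (partHom ρ x y hxy hcomm) σ) (diag_idem _ _)
  have hV : IsKimuraFinite V := by
    refine hW.retract R hU (iV ≫ (x ▷ N) ≫ r) (i ≫ (y ▷ N) ≫ rV) ?_
    have e1 : (x ▷ N) ≫ diag ρ σ ≫ (y ▷ N) = diag (partHom ρ x y hxy hcomm) σ := by
      unfold DQ.diag
      rw [Linear.smul_comp, Linear.comp_smul, Preadditive.sum_comp, Preadditive.comp_sum]
      congr 1
      refine sum_congr rfl (fun g _ => ?_)
      rw [← tensorHom_id, ← tensorHom_id, tensorHom_comp_tensorHom, tensorHom_comp_tensorHom,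
        Category.comp_id, Category.id_comp]
      rfl
    have e2 : (iV ≫ (x ▷ N) ≫ r) ≫ i ≫ (y ▷ N) ≫ rV =
        iV ≫ ((x ▷ N) ≫ (r ≫ i) ≫ (y ▷ N)) ≫ rV := by
      simp only [Category.assoc]
    rw [e2, hri, e1, ← h2]
    rw [Category.assoc, h1, Category.comp_id, h1]
  have hP : IsKimuraFinite P := by
    refine kimura_left R hU (partHom ρ x y hxy hcomm) σ iV rV h1 h2 hV hγ
      (en (x ≫ evm ρ z ≫ y)) ?_
    have e0 : evm ρ (mk (tau hU σ γ)) = ∑ g, tau hU σ γ g • (ρ g : M ⟶ M) := evm_mk ρ _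
    have e1 : (∑ g, tau hU σ γ g • (partHom ρ x y hxy hcomm) g) =
        en (x ≫ evm ρ (mk (tau hU σ γ)) ≫ y) := by
      change _ = x ≫ evm ρ (mk (tau hU σ γ)) ≫ y
      rw [e0, Preadditive.sum_comp, Preadditive.comp_sum]
      refine sum_congr rfl (fun g _ => ?_)
      rw [Linear.smul_comp, Linear.comp_smul]
      rfl
    have e3 : (y ≫ x) ≫ evm ρ (mk (tau hU σ γ)) = evm ρ (mk (tau hU σ γ)) ≫ (y ≫ x) := by
      rw [hyx]
      exact hevc _
    have e5 : evm ρ z ≫ evm ρ (mk (tau hU σ γ)) = y ≫ x := by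
      rw [hyx, ← hz, evm_mul]
    rw [e1]
    change (x ≫ evm ρ z ≫ y) ≫ x ≫ evm ρ (mk (tau hU σ γ)) ≫ y = 𝟙 P
    have e4 : (x ≫ evm ρ z ≫ y) ≫ x ≫ evm ρ (mk (tau hU σ γ)) ≫ y =
        x ≫ evm ρ z ≫ ((y ≫ x) ≫ evm ρ (mk (tau hU σ γ))) ≫ y := by
      simp only [Category.assoc]
    rw [e4, e3, Category.assoc, ← Category.assoc (evm ρ z), e5]
    simp only [Category.assoc]
    rw [hxy, Category.comp_id, ← Category.assoc x y, hxy, Category.id_comp]
  -- the part cut out by `c`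
  intro P' x' y' hxy' hyx'
  have hce : c * e = c := by
    have h3 := hc (cst K (1 - e)) ((dualAct_zero_iff R σ _).2 hhat)
    rw [← cst_mul, mul_sub, mul_one, ← cst_zero (K := K)] at h3
    exact (sub_eq_zero.1 (cst_inj h3)).symm
  refine hP.retract R hU (x' ≫ y) (x ≫ y') ?_
  have e2 : evm ρ c ≫ evm ρ e = evm ρ c := by
    rw [← evm_mul, hcen, hce]
  calc (x' ≫ y) ≫ x ≫ y' = (x' ≫ y') ≫ (x' ≫ y) ≫ x ≫ y' := by rw [hxy', Category.id_comp]
    _ = x' ≫ ((y' ≫ x') ≫ (y ≫ x)) ≫ y' := by simp only [Category.assoc]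
    _ = x' ≫ (y' ≫ x') ≫ y' := by rw [hyx, hyx', e2]
    _ = 𝟙 P' := by
      simp only [Category.assoc]
      rw [hxy', Category.comp_id, hxy']

/-- The action of an element of `ℚ[G]` on `N` through the inverses. -/
noncomputable def hatm (σ : G →* End N) (b : MonoidAlgebra ℚ G) : N ⟶ N :=
  ∑ g, b.coeff g • (σ g⁻¹ : N ⟶ N)

/-- An element of `ℚ[G]` which acts as zero on the dual of `N` kills the diagonal quotient. -/
lemma kill_diag {b : MonoidAlgebra ℚ G} (hb : hatm σ b = 0) :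
    (evm ρ b ▷ N) ≫ diag ρ σ = 0 := by
  have h1 : (evm ρ b ▷ N) ≫ (∑ g, ((ρ g : M ⟶ M) ⊗ₘ (σ g : N ⟶ N))) =
      ∑ g, ((ρ g : M ⟶ M) ⊗ₘ (hatm σ b ≫ (σ g : N ⟶ N))) := by
    have e1 : evm ρ b ▷ N = ∑ h, b.coeff h • ((ρ h : M ⟶ M) ▷ N) := by
      have e2 : evm ρ b ▷ N = wR M N (∑ h, b.coeff h • ρ h) := rfl
      rw [e2, map_sum]
      refine sum_congr rfl (fun h _ => ?_)
      rw [map_smul]
      rfl
    have e3 : ∀ h : G, (b.coeff h • ((ρ h : M ⟶ M) ▷ N)) ≫
        (∑ g, ((ρ g : M ⟶ M) ⊗ₘ (σ g : N ⟶ N))) =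
        ∑ g, b.coeff h • ((ρ g : M ⟶ M) ⊗ₘ ((σ h⁻¹ : N ⟶ N) ≫ (σ g : N ⟶ N))) := by
      intro h
      rw [Linear.smul_comp, Preadditive.comp_sum, ← Equiv.sum_comp (Equiv.mulRight h)
        (fun g => b.coeff h • ((ρ g : M ⟶ M) ⊗ₘ ((σ h⁻¹ : N ⟶ N) ≫ (σ g : N ⟶ N)))), smul_sum]
      refine sum_congr rfl (fun g _ => ?_)
      congr 1
      rw [← tensorHom_id, tensorHom_comp_tensorHom, Category.id_comp, Equiv.coe_mulRight]
      congr 1
      · have e4 : ρ (g * h) = ρ g * ρ h := map_mul ρ g h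
        rw [e4]
        rfl
      · have e4 : σ (g * h) * σ h⁻¹ = σ g := by
          rw [← map_mul, mul_inv_cancel_right]
        exact e4.symm
    rw [e1, Preadditive.sum_comp, sum_congr rfl (fun h _ => e3 h), sum_comm]
    refine sum_congr rfl (fun g _ => ?_)
    rw [hatm, Preadditive.sum_comp]
    have e6 : ∀ s : Finset G, ((ρ g : M ⟶ M) ⊗ₘ (∑ h ∈ s, (b.coeff h • (σ h⁻¹ : N ⟶ N)) ≫
        (σ g : N ⟶ N))) = ∑ h ∈ s, b.coeff h • ((ρ g : M ⟶ M) ⊗ₘ ((σ h⁻¹ : N ⟶ N) ≫
        (σ g : N ⟶ N))) := by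
      classical
      intro s
      induction s using Finset.induction_on with
      | empty =>
        rw [sum_empty, sum_empty]
        exact MonoidalPreadditive.tensor_zero _
      | insert h s hh ih =>
        rw [sum_insert hh, sum_insert hh, MonoidalPreadditive.tensor_add, ih, Linear.smul_comp]
        congr 1
        rw [MonoidalCategory.tensorHom_def, MonoidalLinear.whiskerLeft_smul, Linear.comp_smul,
          ← MonoidalCategory.tensorHom_def]
    exact (e6 univ).symm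
  unfold DQ.diag
  rw [Linear.comp_smul, h1]
  have h2 : ∀ g, ((ρ g : M ⟶ M) ⊗ₘ (hatm σ b ≫ (σ g : N ⟶ N))) = 0 := by
    intro g
    rw [hb, zero_comp]
    exact MonoidalPreadditive.tensor_zero _
  rw [sum_congr rfl (fun g _ => h2 g), sum_const_zero, smul_zero]

include R hU in
/-- The converse for a Kimura finite factor. -/
theorem of_parts [IsIdempotentComplete C] {W : C} (i : W ⟶ M ⊗ N) (r : M ⊗ N ⟶ W)
    (hir : i ≫ r = 𝟙 W) (hri : r ≫ i = diag ρ σ) (hN : IsKimuraFinite N)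
    (h : ∀ c : MonoidAlgebra ℚ G, c * c = c → SeenQ R σ c → PartFinite ρ c) :
    IsKimuraFinite W := by
  have hK := R_charZero R
  obtain ⟨γ, hγ⟩ := (Pool.Agent.Y112.SR.cplus_iff R N).1 (hN.cplus R)
  obtain ⟨e, z, hz, he, hcen, hsee, hhat⟩ := exists_c R hU σ (γ := γ) hγ
  have hee : evm ρ e ≫ evm ρ e = evm ρ e := by rw [← evm_mul, he]
  obtain ⟨P, x, y, hxy, hyx⟩ := IsIdempotentComplete.idempotents_split M (evm ρ e) hee
  have hP := h e he hsee P x y hxy hyx
  have hPN := kimura_tensor R hU hP hN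
  -- the complement acts as zero on `N`
  have h0 : R.H.map (hatm σ (1 - e)) = 0 := by
    have e1 : R.H.map (hatm σ (1 - e)) = dualAct R σ (cst K (1 - e)) := by
      unfold dualAct hatm
      rw [R.H.map_sum]
      refine sum_congr rfl (fun g _ => ?_)
      rw [DQ.map_rat_smul, cst, coeff_mk]
    rw [e1]
    exact (dualAct_zero_iff R σ _).2 hhat
  have h1 : hat σ (1 - e) = 0 := by
    obtain ⟨L, hL⟩ := (hN.homNil R hU) (hat σ (1 - e)) h0
    have hid : (1 - e) * (1 - e) = 1 - e := by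
      rw [sub_mul, one_mul, mul_sub, mul_one, he, sub_self, sub_zero]
    have h2 : hat σ (1 - e) * hat σ (1 - e) = hat σ (1 - e) := by rw [← hat_mul, hid]
    have h3 : ∀ n : ℕ, hat σ (1 - e) ^ (n + 1) = hat σ (1 - e) := by
      intro n
      induction n with
      | zero => rw [zero_add, pow_one]
      | succ n ih => rw [pow_succ, ih, h2]
    rw [← h3 L, pow_succ, hL, zero_mul]
  have h2 := kill_diag ρ σ h1
  have h3 : evm ρ (1 - e) = 𝟙 M - evm ρ e := by
    have e1 : ev ρ (1 - e) = ev ρ 1 - ev ρ e := ev_sub ρ 1 e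
    rw [ev_one] at e1
    exact e1
  have h4 : (evm ρ e ▷ N) ≫ diag ρ σ = diag ρ σ := by
    rw [h3] at h2
    have e1 : (𝟙 M - evm ρ e) ▷ N = 𝟙 _ - evm ρ e ▷ N := by
      have e2 := (wR M N).map_sub (1 : End M) (evm ρ e)
      rw [map_one] at e2
      exact e2
    rw [e1, Preadditive.sub_comp, Category.id_comp, sub_eq_zero] at h2
    exact h2.symm
  refine hPN.retract R hU (i ≫ (y ▷ N)) ((x ▷ N) ≫ r) ?_
  have h5 : (i ≫ (y ▷ N)) ≫ (x ▷ N) ≫ r = i ≫ ((y ≫ x) ▷ N) ≫ r := by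
    rw [comp_whiskerRight]
    simp only [Category.assoc]
  have h6 : r = diag ρ σ ≫ r := by rw [← hri, Category.assoc, hir, Category.comp_id]
  rw [h5, hyx, h6, ← Category.assoc (evm ρ e ▷ N), h4, ← hri, Category.assoc, hir,
    Category.comp_id, hir]

end

end Pool.Agent.V8H87.DK
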